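import Mathlib

/-!
# MP_8c5d11_nt: a cycle of length 120 of the add-or-subtract digit reversal map

The 134-digit number below lies on a cycle of length `120 > 71` of the map
`T(D) = D - rev D` if `rev D < D`, and `T(D) = D + rev D` otherwise.
-/

set_option autoImplicit false

namespace Pool.Agent.Results.MP_8c5d11_nt.Cycle120

/-- `rev D`: the integer obtained by reading the decimal digits of `D` in reverse order (the
leading zeros of the result are dropped). `Nat.digits 10 D` lists the decimal digits of `D`, least
significant digit first. -/
def rev (D : ℕ) : ℕ := Nat.ofDigits 10 (Nat.digits 10 D).reverse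

/-- The add-or-subtract digit reversal map. -/
def T (D : ℕ) : ℕ := if rev D < D then D - rev D else D + rev D

/-- Sanity check: the example `rev(10890) = 9801` of the problem. -/
example : rev 10890 = 9801 := by norm_num [rev, Nat.ofDigits]

/-- `D` lies on a cycle of length `p`: `p` is the minimal period of `D` under `T`. -/
def OnCycle (D p : ℕ) : Prop := 0 < p ∧ T^[p] D = D ∧ ∀ k : ℕ, 0 < k → k < p → T^[k] D ≠ D

/-! ### A version of the reversal which the kernel evaluates quickly -/

/-- reverse with fuel -/
def revA : ℕ → ℕ → ℕ → ℕ
  | 0, _, acc => acc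
  | f + 1, n, acc => if n = 0 then acc else revA f (n / 10) (10 * acc + n % 10)

lemma revA_eq (f : ℕ) : ∀ n acc : ℕ, n < 10 ^ f →
    revA f n acc = Nat.ofDigits 10 ((Nat.digits 10 n).reverse) +
      10 ^ (Nat.digits 10 n).length * acc := by
  induction f with
  | zero =>
    intro n acc h
    have : n = 0 := by simpa using h
    subst this
    simp [revA]
  | succ f ih =>
    intro n acc h
    rw [revA]
    split_ifs with h0
    · subst h0
      simp
    · have h1 : n / 10 < 10 ^ f := by
        rw [Nat.div_lt_iff_lt_mul (by norm_num)]
        calc n < 10 ^ (f + 1) := h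
          _ = 10 ^ f * 10 := pow_succ _ _
      rw [ih _ _ h1, Nat.digits_def' (by norm_num) (Nat.pos_of_ne_zero h0)]
      rw [List.reverse_cons, Nat.ofDigits_append, List.length_cons, List.length_reverse]
      simp only [Nat.ofDigits_singleton]
      ring

/-- one step of `T`, computed with fuel `200` -/
def stepA (D : ℕ) : ℕ :=
  let r := revA 200 D 0
  if r < D then D - r else D + r

lemma stepA_eq (D : ℕ) (h : D < 10 ^ 200) : stepA D = T D := by
  have : revA 200 D 0 = rev D := by
    rw [revA_eq 200 D 0 h, mul_zero, add_zero]
    rfl
  simp only [stepA, T, this]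

/-- `chk n start D`: the next `n` iterates of `D` are less than `10 ^ 200` and different from
`start`; returns the last one -/
def chk : ℕ → ℕ → ℕ → Option ℕ
  | 0, _, D => if D < 10 ^ 200 then some D else none
  | n + 1, start, D =>
    if D < 10 ^ 200 then
      let E := stepA D
      if E = start then none else chk n start E
    else none

lemma chk_ok : ∀ (n start D E : ℕ), chk n start D = some E →
    E < 10 ^ 200 ∧ T^[n] D = E ∧ ∀ k : ℕ, 0 < k → k ≤ n → T^[k] D ≠ start := by
  intro n
  induction n with
  | zero =>
    intro start D E h
    rw [chk] at h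
    split_ifs at h with h1
    simp only [Option.some.injEq] at h
    subst h
    exact ⟨h1, rfl, fun k h2 h3 => by omega⟩
  | succ n ih =>
    intro start D E h
    rw [chk] at h
    split_ifs at h with h1
    simp only at h
    split_ifs at h with h2
    obtain ⟨h3, h4, h5⟩ := ih _ _ _ h
    rw [stepA_eq D h1] at h2 h4 h5
    refine ⟨h3, ?_, ?_⟩
    · rw [Function.iterate_succ_apply]; exact h4
    · intro k hk0 hk
      obtain ⟨k, rfl⟩ : ∃ j, k = j + 1 := ⟨k - 1, by omega⟩
      rw [Function.iterate_succ_apply]
      rcases Nat.eq_zero_or_pos k with rfl | hk1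
      · exact h2
      · exact h5 k hk1 (by omega)

/-- a point of the cycle -/
def D₀ : ℕ := 13482737057684122176822202972875052968682317779505148865459454410494851134540545589505148778231768703494783892022176822203966617262952

/-- the certificate: `119` iterates different from `D₀`, and the `120`-th one is `D₀` -/
def cert : Bool :=
  match chk 119 D₀ D₀ with
  | none => false
  | some E => decide (stepA E = D₀)

lemma cert_ok : cert = true := by decide +kernel

/-- **Theorem.** The number `D₀` lies on a cycle of length `120` of `T`; so there is a positive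
integer which lies on a cycle of length greater than `71`. -/
theorem result :
    (0 < D₀ ∧ OnCycle D₀ 120) ∧ ∃ D p : ℕ, 0 < D ∧ 71 < p ∧ OnCycle D p := by
  have key : 0 < D₀ ∧ OnCycle D₀ 120 := by
    have h := cert_ok
    unfold cert at h
    split at h
    · exact absurd h (by simp)
    · rename_i E hE
      obtain ⟨h1, h2, h3⟩ := chk_ok _ _ _ _ hE
      have h4 : stepA E = D₀ := of_decide_eq_true h
      rw [stepA_eq E h1] at h4
      refine ⟨by unfold D₀; norm_num, by norm_num, ?_, ?_⟩
      · rw [Function.iterate_succ_apply', h2, h4]
      · intro k hk0 hk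
        exact h3 k hk0 (by omega)
  exact ⟨key, D₀, 120, key.1, by norm_num, key.2⟩

end Pool.Agent.Results.MP_8c5d11_nt.Cycle120
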